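import Mathlib

/-!
Lowest degrees of products of polynomials, and a prime ideal modulo all powers of a maximal ideal.
-/

set_option autoImplicit false

open MvPolynomial

namespace Pool.Agent.Q285.AB

theorem low_mul {σ k : Type} [Field k] (p q : MvPolynomial σ k) (a b : ℕ)
    (hp : p ∉ idealOfVars σ k ^ a) (hq : q ∉ idealOfVars σ k ^ b) :
    p * q ∉ idealOfVars σ k ^ (a + b) := by
  classical
  rw [mem_pow_idealOfVars_iff'] at hp hq ⊢
  push Not at hp hq
  obtain ⟨s, hs, hsp⟩ := hp
  obtain ⟨t, ht, htq⟩ := hq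
  have hp0 : MvPowerSeries.coeff s (p : MvPowerSeries σ k) ≠ 0 := by
    rw [MvPolynomial.coeff_coe]; exact hsp
  have hq0 : MvPowerSeries.coeff t (q : MvPowerSeries σ k) ≠ 0 := by
    rw [MvPolynomial.coeff_coe]; exact htq
  have hpn : (p : MvPowerSeries σ k) ≠ 0 := fun h => hp0 (by rw [h, map_zero])
  have hqn : (q : MvPowerSeries σ k) ≠ 0 := fun h => hq0 (by rw [h, map_zero])
  have h1 := MvPowerSeries.ne_zero_iff_order_finite.1 hpn
  have h2 := MvPowerSeries.ne_zero_iff_order_finite.1 hqn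
  obtain ⟨i, hi⟩ : ∃ i : ℕ, i = (p : MvPowerSeries σ k).order.toNat := ⟨_, rfl⟩
  obtain ⟨j, hj⟩ : ∃ j : ℕ, j = (q : MvPowerSeries σ k).order.toNat := ⟨_, rfl⟩
  rw [← hi] at h1
  rw [← hj] at h2
  have h3 := MvPowerSeries.homogeneousComponent_mul_of_le_order h1.le h2.le
  have h4 : MvPowerSeries.homogeneousComponent (i + j)
      ((p : MvPowerSeries σ k) * (q : MvPowerSeries σ k)) ≠ 0 := by
    rw [h3]
    exact mul_ne_zero (MvPowerSeries.homogeneousComponent_of_order h1)
      (MvPowerSeries.homogeneousComponent_of_order h2)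
  have h5 : i < a := by
    have h6 := MvPowerSeries.order_le hp0
    rw [← h1] at h6
    have h7 : i ≤ s.degree := by exact_mod_cast h6
    omega
  have h6 : j < b := by
    have h6 := MvPowerSeries.order_le hq0
    rw [← h2] at h6
    have h7 : j ≤ t.degree := by exact_mod_cast h6
    omega
  intro h7
  apply h4
  ext d
  rw [MvPowerSeries.coeff_homogeneousComponent]
  split_ifs with hd
  · rw [← MvPolynomial.coe_mul, MvPolynomial.coeff_coe, h7 d (by omega), map_zero]
  · rw [map_zero]

/-- the variables in `S` are put to zero -/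
noncomputable def kil {σ : Type} (k : Type) [Field k] (S : Set σ) [DecidablePred (· ∈ S)] :
    MvPolynomial σ k →ₐ[k] MvPolynomial σ k :=
  aeval fun b => if b ∈ S then 0 else X b

section kil

variable {σ k : Type} [Field k] (S : Set σ) [DecidablePred (· ∈ S)]

theorem kil_X_mem {b : σ} (hb : b ∈ S) : kil k S (X b) = 0 := by
  rw [kil, aeval_X, if_pos hb]

theorem kil_X_notMem {b : σ} (hb : b ∉ S) : kil k S (X b) = X b := by
  rw [kil, aeval_X, if_neg hb]

theorem kil_pow (B : ℕ) {T : MvPolynomial σ k} (hT : T ∈ idealOfVars σ k ^ B) :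
    kil k S T ∈ idealOfVars σ k ^ B := by
  have h1 : (idealOfVars σ k).map (kil k S : MvPolynomial σ k →+* MvPolynomial σ k) ≤
      idealOfVars σ k := by
    rw [Ideal.map_span, Ideal.span_le]
    rintro _ ⟨_, ⟨b, rfl⟩, rfl⟩
    by_cases hb : b ∈ S
    · change kil k S (X b) ∈ _
      rw [kil_X_mem S hb]
      exact Ideal.zero_mem _
    · change kil k S (X b) ∈ _
      rw [kil_X_notMem S hb]
      exact Ideal.subset_span ⟨b, rfl⟩
  have h2 : (idealOfVars σ k ^ B).map (kil k S : MvPolynomial σ k →+* MvPolynomial σ k) ≤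
      idealOfVars σ k ^ B := by
    rw [Ideal.map_pow]
    exact Ideal.pow_right_mono h1 B
  exact h2 (Ideal.mem_map_of_mem _ hT)

end kil

/-- polynomials in `Y` with monomials of large degree -/
theorem aeval_pow {σ R k : Type} [Field k] [CommRing R] [Algebra k R] (m : Ideal R) (Y : σ → R)
    (hY : ∀ b, Y b ∈ m) (B : ℕ) {T : MvPolynomial σ k} (hT : T ∈ idealOfVars σ k ^ B) :
    aeval Y T ∈ m ^ B := by
  have h1 : (idealOfVars σ k).map ((aeval Y : MvPolynomial σ k →ₐ[k] R) : MvPolynomial σ k →+* R) ≤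
      m := by
    rw [Ideal.map_span, Ideal.span_le]
    rintro _ ⟨_, ⟨b, rfl⟩, rfl⟩
    change aeval Y (X b) ∈ m
    rw [aeval_X]
    exact hY b
  have h2 : (idealOfVars σ k ^ B).map
      ((aeval Y : MvPolynomial σ k →ₐ[k] R) : MvPolynomial σ k →+* R) ≤ m ^ B := by
    rw [Ideal.map_pow]
    exact Ideal.pow_right_mono h1 B
  exact h2 (Ideal.mem_map_of_mem _ hT)

/-- killing the variables of `S` changes the value only by an element of the ideal of `Y '' S` -/
theorem aeval_sub_kil {σ R k : Type} [Field k] [CommRing R] [Algebra k R] (S : Set σ)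
    [DecidablePred (· ∈ S)] (Y : σ → R) (T : MvPolynomial σ k) :
    aeval Y T - aeval Y (kil k S T) ∈ Ideal.span (Y '' S) := by
  rw [← Ideal.Quotient.eq]
  have h1 : (Ideal.Quotient.mkₐ k (Ideal.span (Y '' S))).comp (aeval Y) =
      ((Ideal.Quotient.mkₐ k (Ideal.span (Y '' S))).comp (aeval Y)).comp (kil k S) := by
    apply MvPolynomial.algHom_ext
    intro b
    rw [AlgHom.comp_apply, AlgHom.comp_apply, AlgHom.comp_apply]
    by_cases hb : b ∈ S
    · rw [kil_X_mem S hb, map_zero, map_zero, aeval_X]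
      exact Ideal.Quotient.eq_zero_iff_mem.2 (Ideal.subset_span ⟨b, hb, rfl⟩)
    · rw [kil_X_notMem S hb]
  exact DFunLike.congr_fun h1 T

end Pool.Agent.Q285.AB
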