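import Pool.Agent.Q41.AB.Stm
import Pool.Agent.Q285.AB.Ord

/-!
Leading forms at general points of the strata of normal crossing hypersurfaces.
-/

set_option autoImplicit false

open MvPolynomial

namespace Pool.Agent.Q285.AB

open Pool.Agent.Q41.RC (MH IsPt SNC CovK colK exists_selK)
open Pool.Agent.Q41.AB

section prime

variable {σ k : Type} [Field k] (m : Ideal (MvPolynomial σ k)) (Y : σ → MvPolynomial σ k)

theorem span_lift
    (h1 : ∀ (B : ℕ) (G : MvPolynomial σ k), ∃ T : MvPolynomial σ k, G - aeval Y T ∈ m ^ B)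
    (S : Set σ) [DecidablePred (· ∈ S)] (B : ℕ) (x : MvPolynomial σ k)
    (hx : x ∈ Ideal.span (Y '' S)) :
    ∃ T : MvPolynomial σ k, kil k S T = 0 ∧ x - aeval Y T ∈ m ^ B := by
  refine Submodule.span_induction (p := fun x _ => ∃ T : MvPolynomial σ k, kil k S T = 0 ∧
    x - aeval Y T ∈ m ^ B) ?_ ?_ ?_ ?_ hx
  · rintro _ ⟨s, hs, rfl⟩
    refine ⟨X s, kil_X_mem S hs, ?_⟩
    rw [aeval_X, sub_self]
    exact Ideal.zero_mem _
  · refine ⟨0, map_zero _, ?_⟩
    rw [map_zero, sub_self]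
    exact Ideal.zero_mem _
  · rintro x y _ _ ⟨T, hT, hx⟩ ⟨U, hU, hy⟩
    refine ⟨T + U, by rw [map_add, hT, hU, add_zero], ?_⟩
    have h2 : x + y - aeval Y (T + U) = (x - aeval Y T) + (y - aeval Y U) := by
      rw [map_add]; ring
    rw [h2]
    exact Ideal.add_mem _ hx hy
  · rintro a x _ ⟨T, hT, hx⟩
    obtain ⟨A, hA⟩ := h1 B a
    refine ⟨A * T, by rw [map_mul, hT, mul_zero], ?_⟩
    have h2 : a • x - aeval Y (A * T) = a * (x - aeval Y T) + aeval Y T * (a - aeval Y A) := by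
      rw [map_mul, smul_eq_mul]; ring
    rw [h2]
    exact Ideal.add_mem _ (Ideal.mul_mem_left _ _ hx) (Ideal.mul_mem_left _ _ hA)

theorem kil_of_mem
    (h1 : ∀ (B : ℕ) (G : MvPolynomial σ k), ∃ T : MvPolynomial σ k, G - aeval Y T ∈ m ^ B)
    (h2 : ∀ (B : ℕ) (T : MvPolynomial σ k), aeval Y T ∈ m ^ B → T ∈ idealOfVars σ k ^ B)
    (S : Set σ) [DecidablePred (· ∈ S)] (B : ℕ) (T : MvPolynomial σ k)
    (hT : aeval Y T ∈ Ideal.span (Y '' S) ⊔ m ^ B) : kil k S T ∈ idealOfVars σ k ^ B := by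
  obtain ⟨x, hx, y, hy, hxy⟩ := Submodule.mem_sup.1 hT
  obtain ⟨U, hU, hxU⟩ := span_lift m Y h1 S B x hx
  have h3 : aeval Y (T - U) ∈ m ^ B := by
    have h4 : aeval Y (T - U) = (x - aeval Y U) + y := by
      rw [map_sub, ← hxy]; ring
    rw [h4]
    exact Ideal.add_mem _ hxU hy
  have h4 := kil_pow S B (h2 B _ h3)
  rw [map_sub, hU, sub_zero] at h4
  exact h4

theorem mem_of_kil (hY : ∀ b, Y b ∈ m) (S : Set σ) [DecidablePred (· ∈ S)] (B : ℕ)
    (T : MvPolynomial σ k) (hT : kil k S T ∈ idealOfVars σ k ^ B) :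
    aeval Y T ∈ Ideal.span (Y '' S) ⊔ m ^ B := by
  have h3 : aeval Y T = (aeval Y T - aeval Y (kil k S T)) + aeval Y (kil k S T) := by ring
  rw [h3]
  exact Submodule.add_mem_sup (aeval_sub_kil S Y T) (aeval_pow m Y hY B hT)

theorem prime_mod (hY : ∀ b, Y b ∈ m)
    (h1 : ∀ (B : ℕ) (G : MvPolynomial σ k), ∃ T : MvPolynomial σ k, G - aeval Y T ∈ m ^ B)
    (h2 : ∀ (B : ℕ) (T : MvPolynomial σ k), aeval Y T ∈ m ^ B → T ∈ idealOfVars σ k ^ B)
    (S : Set σ) (a b : MvPolynomial σ k)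
    (hab : ∀ B, a * b ∈ Ideal.span (Y '' S) ⊔ m ^ B) :
    (∀ B, a ∈ Ideal.span (Y '' S) ⊔ m ^ B) ∨ (∀ B, b ∈ Ideal.span (Y '' S) ⊔ m ^ B) := by
  classical
  by_contra hcon
  push Not at hcon
  obtain ⟨⟨A, hA⟩, ⟨B, hB⟩⟩ := hcon
  obtain ⟨T, hT⟩ := h1 (A + B) a
  obtain ⟨U, hU⟩ := h1 (A + B) b
  have h3 : kil k S T ∉ idealOfVars σ k ^ A := by
    intro h
    apply hA
    have h4 : a = aeval Y T + (a - aeval Y T) := by ring
    rw [h4]
    exact Ideal.add_mem _ (mem_of_kil m Y hY S A T h)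
      (Ideal.mem_sup_right (Ideal.pow_le_pow_right (by omega) hT))
  have h4 : kil k S U ∉ idealOfVars σ k ^ B := by
    intro h
    apply hB
    have h4 : b = aeval Y U + (b - aeval Y U) := by ring
    rw [h4]
    exact Ideal.add_mem _ (mem_of_kil m Y hY S B U h)
      (Ideal.mem_sup_right (Ideal.pow_le_pow_right (by omega) hU))
  apply low_mul _ _ A B h3 h4
  rw [← map_mul]
  apply kil_of_mem m Y h1 h2 S
  have h5 : aeval Y (T * U) = a * b - (b * (a - aeval Y T) + aeval Y T * (b - aeval Y U)) := by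
    rw [map_mul]; ring
  rw [h5]
  exact Ideal.sub_mem _ (hab (A + B)) (Ideal.mem_sup_right
    (Ideal.add_mem _ (Ideal.mul_mem_left _ _ hT) (Ideal.mul_mem_left _ _ hU)))

theorem var_notMem
    (h1 : ∀ (B : ℕ) (G : MvPolynomial σ k), ∃ T : MvPolynomial σ k, G - aeval Y T ∈ m ^ B)
    (h2 : ∀ (B : ℕ) (T : MvPolynomial σ k), aeval Y T ∈ m ^ B → T ∈ idealOfVars σ k ^ B)
    (S : Set σ) (b : σ) (hb : b ∉ S) : Y b ∉ Ideal.span (Y '' S) ⊔ m ^ 2 := by
  classical
  intro h
  have h3 : aeval Y (X b : MvPolynomial σ k) ∈ Ideal.span (Y '' S) ⊔ m ^ 2 := by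
    rw [aeval_X]; exact h
  have h4 := kil_of_mem m Y h1 h2 S 2 (X b) h3
  rw [kil_X_notMem S hb, mem_pow_idealOfVars_iff'] at h4
  have h5 := h4 (Finsupp.single b 1) (by rw [Finsupp.degree_single]; omega)
  rw [coeff_X, if_pos rfl] at h5
  exact one_ne_zero h5

end prime

theorem pderiv_aux {σ k : Type} [Field k] [DecidableEq σ] (i b : σ) (q : σ → k) :
    eval q (pderiv i (X b - C (q b) : MvPolynomial σ k)) = if i = b then 1 else 0 := by
  rw [map_sub, pderiv_C, sub_zero, pderiv_X]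
  by_cases h : i = b
  · subst h
    rw [Pi.single_eq_same, if_pos rfl, map_one]
  · rw [Pi.single_eq_of_ne (Ne.symm h), if_neg h, map_zero]

/-- The stratum is reduced and irreducible at `q`. -/
theorem claim (ch : S_CH) (kr : S_Krull) {k σ κ : Type} [Field k] [Fintype σ] [Fintype κ]
    [DecidableEq κ] (F : κ → MvPolynomial σ k) (q : σ → k)
    (hlin : LinearIndependent k
      fun (c : {c // eval q (F c) = 0}) (i : σ) => eval q (pderiv i (F c.1)))
    (J : Finset κ) (hJ : ∀ c ∈ J, eval q (F c) = 0) (P u : MvPolynomial σ k) (hu : eval q u ≠ 0)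
    (n : ℕ) (h : (P * u * ∏ c ∈ Jᶜ, F c) ^ n ∈ Ideal.span (F '' (J : Set κ))) :
    ∃ g : MvPolynomial σ k, eval q g ≠ 0 ∧ g * P ∈ Ideal.span (F '' (J : Set κ)) := by
  classical
  -- all the hypersurfaces through `q`
  obtain ⟨L, hL⟩ : ∃ L : Finset κ, L = Finset.univ.filter fun c => eval q (F c) = 0 := ⟨_, rfl⟩
  have hmL : ∀ c, c ∈ L ↔ eval q (F c) = 0 := by
    intro c; rw [hL, Finset.mem_filter]; exact ⟨fun h => h.2, fun h => ⟨Finset.mem_univ c, h⟩⟩
  have hw : LinearIndependent k fun (i : L) (l : σ) => eval q (pderiv l (F i.1)) :=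
    hlin.comp (fun i : L => (⟨i.1, (hmL i.1).1 i.2⟩ : {c // eval q (F c) = 0}))
      (fun a b hab => Subtype.ext (congrArg (fun t : {c // eval q (F c) = 0} => t.1) hab))
  obtain ⟨sel, hsel, hdet⟩ := exists_selK (k := k) L (fun i l => eval q (pderiv l (F i))) hw L
    (Finset.Subset.refl L)
  obtain ⟨Y, hYd⟩ : ∃ Y : σ → MvPolynomial σ k,
      Y = fun b => (sel b).elim (X b - C (q b)) F := ⟨_, rfl⟩
  have hYn : ∀ b, sel b = none → Y b = X b - C (q b) := by
    intro b hb; rw [hYd]; change (sel b).elim _ _ = _; rw [hb]; rfl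
  have hYs : ∀ b c, sel b = some c → Y b = F c := by
    intro b c hb; rw [hYd]; change (sel b).elim _ _ = _; rw [hb]; rfl
  have hY0 : ∀ b, eval q (Y b) = 0 := by
    intro b
    rcases hb : sel b with _ | c
    · rw [hYn b hb, map_sub, eval_X, eval_C, sub_self]
    · rw [hYs b c hb]
      exact (hmL c).1 (hsel.2 b c hb)
  have hYdet : (Matrix.of fun i b => eval q (pderiv i (Y b))).det ≠ 0 := by
    have h3 : (Matrix.of fun i b => eval q (pderiv i (Y b))) =
        colK (fun c l => eval q (pderiv l (F c))) sel := by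
      ext i b
      rw [Matrix.of_apply]
      unfold colK
      rw [Matrix.of_apply]
      rcases hb : sel b with _ | c
      · rw [hYn b hb, pderiv_aux]
        rfl
      · rw [hYs b c hb]
        rfl
    rw [h3]
    exact hdet
  obtain ⟨h1, h2'⟩ := ch q Y hY0 hYdet
  obtain ⟨m, hm⟩ : ∃ m : Ideal (MvPolynomial σ k), m = RingHom.ker (eval q) := ⟨_, rfl⟩
  have hmm : ∀ G : MvPolynomial σ k, G ∈ m ↔ eval q G = 0 := by
    intro G; rw [hm, RingHom.mem_ker]
  rw [← hm] at h1 h2'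
  have h2 : ∀ (B : ℕ) (T : MvPolynomial σ k), aeval Y T ∈ m ^ B → T ∈ idealOfVars σ k ^ B := by
    intro B T hT
    rw [mem_pow_idealOfVars_iff]
    exact h2' B T hT
  have hYm : ∀ b, Y b ∈ m := fun b => (hmm _).2 (hY0 b)
  obtain ⟨S, hS⟩ : ∃ S : Set σ, S = {b | ∃ c ∈ J, sel b = some c} := ⟨_, rfl⟩
  have hSJ : Y '' S = F '' (J : Set κ) := by
    rw [hS]
    ext p
    constructor
    · rintro ⟨b, ⟨c, hc, hbc⟩, rfl⟩
      exact ⟨c, hc, (hYs b c hbc).symm⟩
    · rintro ⟨c, hc, rfl⟩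
      obtain ⟨b, hb⟩ := hsel.1 c ((hmL c).2 (hJ c hc))
      exact ⟨b, ⟨c, hc, hb⟩, hYs b c hb⟩
  have hIm : Ideal.span (F '' (J : Set κ)) ≤ m := by
    rw [Ideal.span_le]
    rintro _ ⟨c, hc, rfl⟩
    exact (hmm _).2 (hJ c hc)
  have hpr := prime_mod m Y hYm h1 h2 S
  rw [hSJ] at hpr
  -- units
  have hun : ∀ w : MvPolynomial σ k, eval q w ≠ 0 →
      ¬ ∀ B, w ∈ Ideal.span (F '' (J : Set κ)) ⊔ m ^ B := by
    intro w hw hB
    have h3 := hB 1
    rw [pow_one, sup_eq_right.2 hIm, hmm] at h3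
    exact hw h3
  -- the other hypersurfaces
  have hoth : ∀ c, c ∉ J → ¬ ∀ B, F c ∈ Ideal.span (F '' (J : Set κ)) ⊔ m ^ B := by
    intro c hc
    by_cases hcL : c ∈ L
    · obtain ⟨b, hb⟩ := hsel.1 c hcL
      intro hB
      have h3 := hB 2
      rw [← hSJ, ← hYs b c hb] at h3
      refine var_notMem m Y h1 h2 S b ?_ h3
      rw [hS]
      rintro ⟨c', hc', hbc'⟩
      rw [hb] at hbc'
      exact hc (Option.some.inj hbc' ▸ hc')
    · exact hun _ fun h0 => hcL ((hmL c).2 h0)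
  have hprod : ∀ K : Finset κ, (∀ c ∈ K, c ∉ J) →
      ¬ ∀ B, ∏ c ∈ K, F c ∈ Ideal.span (F '' (J : Set κ)) ⊔ m ^ B := by
    intro K
    induction K using Finset.induction_on with
    | empty =>
      intro _
      rw [Finset.prod_empty]
      exact hun 1 (by rw [map_one]; exact one_ne_zero)
    | insert c K hcK ih =>
      intro hK hB
      rw [Finset.prod_insert hcK] at hB
      rcases hpr _ _ hB with h3 | h3
      · exact hoth c (hK c (Finset.mem_insert_self _ _)) h3
      · exact ih (fun c' hc' => hK c' (Finset.mem_insert_of_mem hc')) h3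
  have hpow : ∀ n : ℕ, (∀ B, (P * u * ∏ c ∈ Jᶜ, F c) ^ n ∈ Ideal.span (F '' (J : Set κ)) ⊔ m ^ B) →
      ∀ B, P ∈ Ideal.span (F '' (J : Set κ)) ⊔ m ^ B := by
    intro n
    induction n with
    | zero =>
      intro hB
      rw [pow_zero] at hB
      exact absurd hB (hun 1 (by rw [map_one]; exact one_ne_zero))
    | succ n ih =>
      intro hB
      simp only [pow_succ] at hB
      rcases hpr _ _ hB with h3 | h3
      · exact ih h3
      · rcases hpr _ _ h3 with h4 | h4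
        · rcases hpr _ _ h4 with h5 | h5
          · exact h5
          · exact absurd h5 (hun u hu)
        · exact absurd h4 (hprod _ fun c hc => Finset.mem_compl.1 hc)
  have hP := hpow n fun B => Ideal.mem_sup_left h
  rw [hm] at hP
  exact kr q _ P hP

/-- The generators may be taken without the hypersurfaces of the weight zero. -/
theorem collect {σ κ k : Type} [Field k] [Fintype κ] (F : κ → MvPolynomial σ k)
    (v : κ → ℕ) (r : ℕ) (p : MvPolynomial σ k) (hp : p ∈ MI F {a | r ≤ wt v a}) :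
    ∃ (T : Finset (κ → ℕ)) (P : (κ → ℕ) → MvPolynomial σ k), p = ∑ a ∈ T, P a * ∏ c, F c ^ a c ∧
      ∀ a ∈ T, r ≤ wt v a ∧ ∀ c, v c = 0 → a c = 0 := by
  classical
  have h1 : MI F {a | r ≤ wt v a} ≤ Ideal.span ((fun a : κ → ℕ => ∏ c, F c ^ a c) ''
      {a | r ≤ wt v a ∧ ∀ c, v c = 0 → a c = 0}) := by
    unfold MI
    rw [Ideal.span_le]
    rintro _ ⟨a, ha, rfl⟩
    have h2 : ∏ c, F c ^ a c = (∏ c, F c ^ (if v c = 0 then a c else 0)) *
        ∏ c, F c ^ (if v c = 0 then 0 else a c) := by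
      rw [← Finset.prod_mul_distrib]
      refine Finset.prod_congr rfl fun c _ => ?_
      by_cases hc : v c = 0
      · rw [if_pos hc, if_pos hc, pow_zero, mul_one]
      · rw [if_neg hc, if_neg hc, pow_zero, one_mul]
    rw [h2]
    refine Ideal.mul_mem_left _ _ (Ideal.subset_span ⟨fun c => if v c = 0 then 0 else a c, ?_, rfl⟩)
    constructor
    · have h3 : wt v (fun c => if v c = 0 then 0 else a c) = wt v a := by
        unfold wt
        refine Finset.sum_congr rfl fun c _ => ?_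
        change (if v c = 0 then 0 else a c) * v c = a c * v c
        by_cases hc : v c = 0
        · rw [hc, mul_zero, mul_zero]
        · rw [if_neg hc]
      rw [h3]
      exact ha
    · intro c hc
      exact if_pos hc
  obtain ⟨l, hl, hlp⟩ := Finsupp.mem_span_image_iff_linearCombination (MvPolynomial σ k) |>.1 (h1 hp)
  refine ⟨l.support, l, ?_, fun a ha => (Finsupp.mem_supported _ _).1 hl ha⟩
  rw [← hlp, Finsupp.linearCombination_apply]
  rfl

theorem wt_single {κ : Type} [Fintype κ] [DecidableEq κ] (v a : κ → ℕ) (c : κ) :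
    wt v (a + Pi.single c 1) = wt v a + v c := by
  unfold wt
  have h1 : ∀ c', (a + Pi.single c 1 : κ → ℕ) c' * v c' = a c' * v c' + if c' = c then v c else 0 := by
    intro c'
    rw [Pi.add_apply, add_mul]
    congr 1
    by_cases h : c' = c
    · subst h
      rw [Pi.single_eq_same, if_pos rfl, one_mul]
    · rw [Pi.single_eq_of_ne h, if_neg h, zero_mul]
  rw [Finset.sum_congr rfl fun c' _ => h1 c', Finset.sum_add_distrib, Finset.sum_ite_eq',
    if_pos (Finset.mem_univ c)]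

theorem prod_single {σ κ k : Type} [Field k] [Fintype κ] [DecidableEq κ]
    (F : κ → MvPolynomial σ k) (a : κ → ℕ) (c : κ) :
    F c * ∏ c', F c' ^ a c' = ∏ c', F c' ^ (a + Pi.single c 1 : κ → ℕ) c' := by
  have h1 : ∀ c', F c' ^ (a + Pi.single c 1 : κ → ℕ) c' = (if c' = c then F c else 1) * F c' ^ a c' := by
    intro c'
    rw [Pi.add_apply]
    by_cases h : c' = c
    · subst h
      rw [Pi.single_eq_same, if_pos rfl, pow_succ, mul_comm]
    · rw [Pi.single_eq_of_ne h, if_neg h, one_mul, add_zero]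
  rw [Finset.prod_congr rfl fun c' _ => h1 c', Finset.prod_mul_distrib, Finset.prod_ite_eq',
    if_pos (Finset.mem_univ c)]

/-- Leading forms at general points of a stratum. -/
theorem gen (ch : S_CH) (kr : S_Krull) : Pool.Agent.Q41.AB.S_Gen := by
  classical
  intro k ρ σ κ _ _ _ _ _ pr F hS v r G hge hnot
  unfold OrdGe at hnot
  push Not at hnot
  obtain ⟨q0, hq0, hq0v, hloc⟩ := hnot
  obtain ⟨g1, hg1, hmem⟩ := hge q0 hq0 hq0v
  obtain ⟨T, P, hTP, hT⟩ := collect F v r _ hmem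
  by_contra hcon
  apply hloc
  have hlin := hS q0 hq0
  choose j hj hjq using hq0
  obtain ⟨J, hJ⟩ : ∃ J : Finset κ, J = Finset.univ.filter fun c => v c ≠ 0 := ⟨_, rfl⟩
  have hmJ : ∀ c, c ∈ J ↔ v c ≠ 0 := by
    intro c; rw [hJ, Finset.mem_filter]; exact ⟨fun h => h.2, fun h => ⟨Finset.mem_univ c, h⟩⟩
  have hu : eval q0 (g1 * ∏ l, X (j l)) ≠ 0 := by
    rw [map_mul, map_prod]
    refine mul_ne_zero hg1 (Finset.prod_ne_zero_iff.2 fun l _ => ?_)
    rw [eval_X]
    exact hjq l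
  have hvan : ∀ a ∈ T, wt v a = r → ∃ n : ℕ,
      (P a * (g1 * ∏ l, X (j l)) * ∏ c ∈ Jᶜ, F c) ^ n ∈ Ideal.span (F '' (J : Set κ)) := by
    intro a ha har
    have h1 : P a * (g1 * ∏ l, X (j l)) * ∏ c ∈ Jᶜ, F c ∈
        vanishingIdeal k (zeroLocus k (Ideal.span (F '' (J : Set κ)))) := by
      rw [mem_vanishingIdeal_iff]
      intro x hx
      rw [mem_zeroLocus_iff] at hx
      by_contra hne
      rw [map_mul, map_mul, map_mul, map_prod, map_prod] at hne
      have h2 := left_ne_zero_of_mul hne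
      have h3 := right_ne_zero_of_mul hne
      have h4 := left_ne_zero_of_mul h2
      have h5 := right_ne_zero_of_mul h2
      have h6 := left_ne_zero_of_mul h5
      have h7 := right_ne_zero_of_mul h5
      rw [Finset.prod_ne_zero_iff] at h3 h7
      apply hcon
      refine ⟨x, g1, T, P, ?_, ?_, ?_, h6, hTP, hT, a, ha, har, h4⟩
      · intro l
        refine ⟨j l, hj l, ?_⟩
        have h8 := h7 l (Finset.mem_univ l)
        rw [aeval_X] at h8
        exact h8
      · intro c hc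
        exact hx (F c) (Ideal.subset_span ⟨c, (hmJ c).2 hc, rfl⟩)
      · intro c hc
        refine h3 c (Finset.mem_compl.2 fun h => (hmJ c).1 h hc)
    rw [vanishingIdeal_zeroLocus_eq_radical] at h1
    exact h1
  have hcl : ∀ a : κ → ℕ, ∃ g : MvPolynomial σ k, eval q0 g ≠ 0 ∧
      (a ∈ T → wt v a = r → g * P a ∈ Ideal.span (F '' (J : Set κ))) := by
    intro a
    by_cases h : a ∈ T ∧ wt v a = r
    · obtain ⟨n, hn⟩ := hvan a h.1 h.2
      obtain ⟨g, hg, hgP⟩ := claim ch kr F q0 hlin J (fun c hc => hq0v c ((hmJ c).1 hc)) (P a) _ hu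
        n hn
      exact ⟨g, hg, fun _ _ => hgP⟩
    · exact ⟨1, by rw [map_one]; exact one_ne_zero, fun h1 h2 => absurd ⟨h1, h2⟩ h⟩
  choose g hg hgP using hcl
  refine ⟨(∏ a ∈ T, g a) * g1, ?_, ?_⟩
  · rw [map_mul, map_prod]
    exact mul_ne_zero (Finset.prod_ne_zero_iff.2 fun a _ => hg a) hg1
  · rw [mul_assoc, hTP, Finset.mul_sum]
    refine Ideal.sum_mem _ fun a ha => ?_
    rw [← mul_assoc]
    rcases (hT a ha).1.lt_or_eq with hlt | heq
    · exact Ideal.mul_mem_left _ _ (Ideal.subset_span ⟨a, hlt, rfl⟩)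
    · have h1 : (∏ a ∈ T, g a) * P a ∈ Ideal.span (F '' (J : Set κ)) := by
        rw [← Finset.prod_erase_mul T g ha, mul_assoc]
        exact Ideal.mul_mem_left _ _ (hgP a ha heq.symm)
      refine Submodule.span_induction (p := fun x _ => x * ∏ c, F c ^ a c ∈
        MI F {a | r + 1 ≤ wt v a}) ?_ ?_ ?_ ?_ h1
      · rintro _ ⟨c, hc, rfl⟩
        rw [prod_single]
        refine Ideal.subset_span ⟨a + Pi.single c 1, ?_, rfl⟩
        change r + 1 ≤ wt v (a + Pi.single c 1)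
        rw [wt_single]
        have h2 := (hmJ c).1 hc
        omega
      · rw [zero_mul]
        exact Ideal.zero_mem _
      · intro x y _ _ hx hy
        rw [add_mul]
        exact Ideal.add_mem _ hx hy
      · intro b x _ hx
        rw [smul_eq_mul, mul_assoc]
        exact Ideal.mul_mem_left _ _ hx

end Pool.Agent.Q285.AB
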